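import Pool.Agent.J4H50.YM.Stm
import Pool.Agent.W574.RO.One

/-!
# Project YM: the value of the zeta function of a point of the plane at `T = 1` (M3)
-/

set_option autoImplicit false

namespace Pool.Agent.J4H19.YM

open Pool.Agent.W574.MO Pool.Agent.J4H50.TF Pool.Agent.J4H50.YO Pool.Agent.J4H50.YM
open Pool.Agent.W574.RO (FF lf lf_mul lf_ne val_C val_mf)

theorem val_red {h : MvPolynomial (Fin 2) ℂ} {a0 n0 a1 n1 : ℕ} {Z : PowerSeries AA}
    (hZ : RedZeta (mf LL) (PowerSeries.C ((LL : AAˣ) : AA)) h a0 n0 a1 n1 Z) (hn0 : 1 ≤ n0)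
    (hn1 : 1 ≤ n1) (hz0 : a0 = 0 → n0 = 1) (hz1 : a1 = 0 → n1 = 1) :
    Pool.Agent.W574.RO.Val Z ((lf 1 - 1) / (lf n0 - 1) * ((lf 1 - 1) / (lf n1 - 1))) := by
  classical
  induction hZ with
  | unit h a0 n0 a1 n1 hh => exact (val_mf a0 n0 hn0 hz0).mul (val_mf a1 n1 hn1 hz1)
  | curveV h a0 n0 h0 h1 =>
    exact (val_mf a0 n0 hn0 hz0).mul (val_mf 1 1 le_rfl fun _ => rfl)
  | curveU h a1 n1 h0 h1 =>
    rw [mul_comm ((lf 1 - 1) / (lf 1 - 1))]
    exact (val_mf a1 n1 hn1 hz1).mul (val_mf 1 1 le_rfl fun _ => rfl)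
  | blowup h a0 n0 a1 n1 m hm hc hI hhc hhI S h0S hS Zc ZI h0 hcS hZI ih0 ihc ihI =>
    have hnn : 1 ≤ n0 + n1 := by omega
    have e0 := ih0 hnn hn1 (fun h => by omega) hz1
    have eI := ihI hn0 hnn hz0 (fun h => by omega)
    set v : ℂ → FF := fun c => if c = 0 then (lf 1 - 1) / (lf (n0 + n1) - 1) *
      ((lf 1 - 1) / (lf n1 - 1)) else (lf 1 - 1) / (lf (n0 + n1) - 1) with hv
    have hsum := Pool.Agent.W574.RO.Val.sum S Zc v fun c hcS => by
      by_cases h : c = 0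
      · rw [hv]
        simp only [if_pos h]
        rw [h]
        exact e0
      · rw [hv]
        simp only [if_neg h]
        have := ihc c hcS h hnn le_rfl (fun h => by omega) (fun _ => rfl)
        rwa [div_self (lf_ne 1 le_rfl), mul_one] at this
    have hE := (val_C ((LL : AA) - (S.card : AA))).mul
      (val_mf (a0 + a1 + m) (n0 + n1) hnn (fun h => by omega))
    have hall := (eI.add hsum).add hE
    have hCc : PowerSeries.C ((LL : AA) - (S.card : AA)) =
        PowerSeries.C ((LL : AAˣ) : AA) - (S.card : PowerSeries AA) := by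
      rw [map_sub, map_natCast]
    rw [hCc] at hall
    convert hall using 1
    have h1 : ∑ c ∈ S, v c = (lf 1 - 1) / (lf (n0 + n1) - 1) * ((lf 1 - 1) / (lf n1 - 1)) +
        ((S.card : FF) - 1) * ((lf 1 - 1) / (lf (n0 + n1) - 1)) := by
      rw [← Finset.add_sum_erase S v h0S]
      congr 1
      · rw [hv]
        simp only [if_true]
      · rw [Finset.sum_congr rfl (g := fun _ => (lf 1 - 1) / (lf (n0 + n1) - 1)) fun c hc => ?_]
        · rw [Finset.sum_const, Finset.card_erase_of_mem h0S, nsmul_eq_mul,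
            Nat.cast_sub (Finset.card_pos.2 ⟨0, h0S⟩), Nat.cast_one]
        · rw [hv]
          simp only [if_neg (Finset.ne_of_mem_erase hc)]
    rw [h1, map_sub, map_natCast]
    have h3 : algebraMap AA FF (LL : AA) = lf 1 := by rw [lf, pow_one]
    have g0 := lf_ne n0 hn0
    have g1 := lf_ne n1 hn1
    have g2 := lf_ne (n0 + n1) hnn
    rw [h3]
    have h4 := lf_mul n0 n1
    field_simp
    rw [h4]
    ring

theorem t_M3 : S_M3 := by
  intro h a0 n0 a1 n1 Z hZ hn0 hn1 hz0 hz1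
  obtain ⟨D, N, h1, h2, h3⟩ := val_red hZ hn0 hn1 hz0 hz1
  refine ⟨N, D, h1, h2, ?_⟩
  apply IsFractionRing.injective AA FF
  have e : ∀ n : ℕ, algebraMap AA FF (((LL : AAˣ) : AA) ^ n) = lf n := by
    intro n
    rw [lf, Units.val_pow_eq_pow_val]
  have e1 : algebraMap AA FF ((LL : AAˣ) : AA) = lf 1 := by rw [lf, pow_one]
  have g0 := lf_ne n0 hn0
  have g1 := lf_ne n1 hn1
  have e2 : algebraMap AA FF ((((LL : AAˣ) : AA) - 1) ^ 2) = (lf 1 - 1) ^ 2 := by
    rw [map_pow, map_sub, map_one, e1]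
  have e3 : ∀ n : ℕ, algebraMap AA FF (((LL : AAˣ) : AA) ^ n - 1) = lf n - 1 := by
    intro n
    rw [map_sub, map_one, e]
  rw [map_mul, map_mul, map_mul, e2, e3, e3, h3]
  field_simp

end Pool.Agent.J4H19.YM
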