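import Pool.Agent.J4H50.YM.Stm

/-!
# Project YM: the cone (M8)
-/

set_option autoImplicit false

namespace Pool.Agent.J4H19.YM

open Pool.Agent.W574.MO Pool.Agent.J4H50.TF Pool.Agent.J4H50.YO Pool.Agent.J4H50.YM
open PowerSeries (C X)

section sb

variable {M : Type} [CommRing M] (L : Mˣ) (n d : ℕ)

theorem sbS_apply (x : PowerSeries M) : sbS L n d x =
    PowerSeries.expand (d + 1) (Nat.succ_ne_zero d)
      (PowerSeries.rescale ((L⁻¹ ^ n : Mˣ) : M) x) := rfl

theorem sbS_C (c : M) : sbS L n d (C c) = C c := by
  have h : PowerSeries.rescale ((L⁻¹ ^ n : Mˣ) : M) (C c) = C c := by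
    ext k
    rw [PowerSeries.coeff_rescale, PowerSeries.coeff_C]
    split_ifs with h
    · subst h; simp
    · simp
  rw [sbS_apply, h, PowerSeries.expand_C]

theorem sbS_X : sbS L n d X = qq L d n * X := by
  rw [sbS_apply, PowerSeries.rescale_X, map_mul, PowerSeries.expand_C, PowerSeries.expand_X, qq]
  ring

theorem sbS_qq (a m : ℕ) : sbS L n d (qq L a m) = qq L ((d + 1) * a) (m + n * a) := by
  rw [qq, map_mul, sbS_C, map_pow, sbS_X, qq, qq, mul_pow, mul_pow, ← map_pow, ← pow_mul, mul_assoc,
    ← pow_add, pow_add (L⁻¹) m, pow_mul (L⁻¹) n a, Units.val_mul, Units.val_pow_eq_pow_val _ a,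
    map_mul]
  ring

theorem sbS_mem {K K' : ℕ → ℕ → Prop}
    (hK : ∀ a m, 1 ≤ a → 1 ≤ m → K a m → K' ((d + 1) * a) (m + n * a))
    {x : PowerSeries M} (hx : x ∈ DenRing L K) : sbS L n d x ∈ DenRing L K' := by
  have h : DenRing L K ≤ (DenRing L K').comap (sbS L n d) := by
    rw [DenRing, Subring.closure_le]
    rintro u (⟨p, rfl⟩ | ⟨a, m, ha, hm, hKa, hu⟩)
    · change sbS L n d (p : PowerSeries M) ∈ DenRing L K'
      induction p using Polynomial.induction_on with
      | C a =>
        rw [Polynomial.coe_C, sbS_C]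
        exact C_mem _
      | add p q hp hq =>
        rw [Polynomial.coe_add, map_add]
        exact (DenRing L K').add_mem hp hq
      | monomial k a _ =>
        rw [Polynomial.coe_mul, Polynomial.coe_C, Polynomial.coe_pow, Polynomial.coe_X, map_mul,
          map_pow, sbS_C, sbS_X]
        exact (DenRing L K').mul_mem (C_mem _)
          ((DenRing L K').pow_mem ((DenRing L K').mul_mem (qq_mem _ _) X_mem) _)
    · change sbS L n d u ∈ DenRing L K'
      refine Subring.subset_closure (Or.inr ⟨(d + 1) * a, m + n * a, ?_, ?_, hK a m ha hm hKa, ?_⟩)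
      · exact Nat.mul_pos (Nat.succ_pos d) ha
      · omega
      · have h1 := congrArg (sbS L n d) hu
        rw [map_mul, map_sub, map_one] at h1
        have h2 := sbS_qq L n d a m
        unfold qq at h2
        rw [h2] at h1
        exact h1
  exact h hx

end sb

theorem alg1 {R : Type} [CommRing R] {c Lc y q g h rho r del sig : R}
    (hc : c = Lc - 1) (hg : (1 - q) * g = 1) (hh : (1 - y) * h = 1)
    (hsig : sig = (1 - q * y) * rho) :
    c * (del + rho - 1) + (c * rho + r) * (c * g + c * h - Lc) =
      c * ((c * sig * g + r) * h) + (c * (del - 1) + r * (c * g - Lc)) := by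
  have h1 : (1 - q * y) * (g * h) = g + h - 1 := by
    linear_combination (y * h) * hg + (g - 1) * hh
  subst hsig
  subst hc
  linear_combination (-(Lc - 1) ^ 2 * rho) * h1

theorem alg2 {R : Type} [CommRing R] {c Lc t q g r del sig : R} (hg : (1 - q) * g = 1)
    (h : r + Lc * sig = 1 - (1 - q * t) * del) :
    c * (del - 1) + r * (c * g - Lc) + Lc * (c * sig * g + r) =
      c * q * g - c * q * g * (1 - t) * del := by
  linear_combination c * g * h + c * (1 - del) * hg

theorem alg3 {R : Type} [CommRing R] {c Lc t y q g h e A B N Ln td P V rho r W SD : R}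
    (hc : c = Lc - 1) (hg : (1 - q) * g = 1) (hh : (1 - y) * h = 1) (he : e * (1 - t) = 1)
    (hy : Lc * y = t) (hV : V = (1 - (c * rho + r)) * e) (hrho : rho = W * h)
    (hrW : r + Lc * W = c * q * g * (A + N) + c * q * g * t * B - c * q * g * (1 - t) * SD)
    (hB : c * (A + B + N) = Ln - 1) (hq : Ln * q = td) (hP : P * (1 - t) = 1 - td) :
    V - rho = P * g + c * q * g * (B + SD) := by
  have h1 : (1 - y) * rho = W := by
    rw [hrho]
    linear_combination W * hh
  have h2 : (Lc - t) * rho = Lc * W := by
    linear_combination Lc * h1 + rho * hy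
  have h3 : V * (1 - t) = 1 - (c * rho + r) := by
    rw [hV]
    linear_combination (1 - (c * rho + r)) * he
  have key : (V - rho) * (1 - t) = (P * g + c * q * g * (B + SD)) * (1 - t) := by
    linear_combination h3 - h2 - g * hP - rho * hc - hrW - hg - g * hq - q * g * hB
  linear_combination e * key - (V - rho - (P * g + c * q * g * (B + SD))) * he

theorem t_M8 : S_M8 := by
  intro M _ L ι _ n d hn hd A Z K K' hK' hKK hDec
  choose rho r hZ hr hsig hdel using hDec
  set c : PowerSeries M := C ((L : M) - 1) with hc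
  set Lc : PowerSeries M := C (L : M) with hLc
  set y : PowerSeries M := qq L 1 1 with hy
  set q : PowerSeries M := qq L d n with hq
  set g : PowerSeries M := geo L d n with hg
  set h : PowerSeries M := geo L 1 1 with hh
  set B : M := (∑ i ∈ Finset.range n, (L : M) ^ i) - A - (Fintype.card ι : M) with hB
  have ecL : c = Lc - 1 := by rw [hc, hLc, map_sub, map_one]
  have eg : (1 - q) * g = 1 := geo_mul L hd n
  have eh : (1 - y) * h = 1 := geo_mul L le_rfl 1
  have ey : Lc * y = X := by
    rw [hLc, hy, qq, pow_one, pow_one, ← mul_assoc, ← map_mul, ← Units.val_mul, mul_inv_cancel,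
      Units.val_one, map_one, one_mul]
  have sy : sbS L n d y = q * y := by
    rw [hy, sbS_qq, hq, qq_mul]
    congr 1 <;> ring
  have sc : sbS L n d c = c := sbS_C L n d _
  have sL : sbS L n d Lc = Lc := sbS_C L n d _
  have sX : sbS L n d X = q * X := sbS_X L n d
  -- the relation between the parts
  have hrel : ∀ i, r i + Lc * ((1 - y) * rho i) = 1 - (1 - X) * (vol (Z i) - rho i) := by
    intro i
    have h1 : vol (Z i) * (1 - X) = 1 - Z i := by
      rw [vol, mul_assoc]
      have := PowerSeries.mk_one_mul_one_sub_eq_one M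
      have h2 : (PowerSeries.mk fun _ => (1 : M)) * (1 - X) = 1 := this
      rw [h2, mul_one]
    have h2 := hZ i
    linear_combination h1 - h2 - rho i * ecL - rho i * ey
  have srel : ∀ i, sbS L n d (r i) + Lc * sbS L n d ((1 - y) * rho i) =
      1 - (1 - q * X) * sbS L n d (vol (Z i) - rho i) := by
    intro i
    have h1 := congrArg (sbS L n d) (hrel i)
    rw [map_add, map_mul, sL, map_sub, map_one, map_mul (sbS L n d) (1 - X), map_sub (sbS L n d) 1,
      map_one, sX] at h1
    exact h1
  have ssig : ∀ i, sbS L n d ((1 - y) * rho i) = (1 - q * y) * sbS L n d (rho i) := by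
    intro i
    rw [map_mul, map_sub, map_one, sy]
  set W : PowerSeries M := C B * (c * q * g * y) +
    ∑ i, (c * sbS L n d ((1 - y) * rho i) * g + sbS L n d (r i)) with hW
  set rt : PowerSeries M := C A * (c * q * g) +
    ∑ i, (c * (sbS L n d (vol (Z i) - rho i) - 1) + sbS L n d (r i) * (c * g - Lc)) with hrt
  have hcone : coneZ L n d A Z = c * (W * h) + rt := by
    have h1 : ∀ i, ptZ L n d (Z i) =
        c * ((c * sbS L n d ((1 - y) * rho i) * g + sbS L n d (r i)) * h) +
          (c * (sbS L n d (vol (Z i) - rho i) - 1) + sbS L n d (r i) * (c * g - Lc)) := by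
      intro i
      rw [← alg1 (rho := sbS L n d (rho i)) ecL eg eh (ssig i)]
      have h2 : sbS L n d (vol (Z i)) = sbS L n d (vol (Z i) - rho i) + sbS L n d (rho i) := by
        rw [← map_add, sub_add_cancel]
      have h3 : sbS L n d (Z i) = c * sbS L n d (rho i) + sbS L n d (r i) := by
        conv_lhs => rw [hZ i]
        rw [map_add, map_mul, sc]
      rw [ptZ, h2, h3]
    rw [coneZ, mf_pos L hd, mf_pos L le_rfl, Finset.sum_congr rfl fun i _ => h1 i,
      Finset.sum_add_distrib, ← Finset.mul_sum, ← Finset.sum_mul, hrt, hW]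
    change C A * (c * q * g) + C B * (c * q * g * (c * y * h)) + _ = _
    ring
  have hgm : g ∈ DenRing L K' := geo_mem hd hn hK'
  have hqm : q ∈ DenRing L K' := qq_mem _ _
  have hcm : c ∈ DenRing L K' := C_mem _
  have hLm : Lc ∈ DenRing L K' := C_mem _
  have hym : y ∈ DenRing L K' := qq_mem _ _
  have hrm : ∀ i, sbS L n d (r i) ∈ DenRing L K' := fun i => sbS_mem L n d (hKK i) (hr i)
  have hsm : ∀ i, sbS L n d ((1 - y) * rho i) ∈ DenRing L K' := fun i =>
    sbS_mem L n d (hKK i) (hsig i)
  have hdm : ∀ i, sbS L n d (vol (Z i) - rho i) ∈ DenRing L K' := fun i =>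
    sbS_mem L n d (hKK i) (hdel i)
  have hcqg : c * q * g ∈ DenRing L K' :=
    (DenRing L K').mul_mem ((DenRing L K').mul_mem hcm hqm) hgm
  have hWm : W ∈ DenRing L K' := by
    refine (DenRing L K').add_mem ((DenRing L K').mul_mem (C_mem _)
      ((DenRing L K').mul_mem hcqg hym)) ((DenRing L K').sum_mem fun i _ => ?_)
    exact (DenRing L K').add_mem ((DenRing L K').mul_mem ((DenRing L K').mul_mem hcm (hsm i)) hgm)
      (hrm i)
  refine ⟨W * h, rt, hcone, ?_, ?_, ?_⟩
  · refine (DenRing L K').add_mem ((DenRing L K').mul_mem (C_mem _) hcqg)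
      ((DenRing L K').sum_mem fun i _ => ?_)
    exact (DenRing L K').add_mem ((DenRing L K').mul_mem hcm
      ((DenRing L K').sub_mem (hdm i) (DenRing L K').one_mem))
      ((DenRing L K').mul_mem (hrm i)
        ((DenRing L K').sub_mem ((DenRing L K').mul_mem hcm hgm) hLm))
  · have h1 : (1 - y) * (W * h) = W := by linear_combination W * eh
    rw [h1]
    exact hWm
  · have key : vol (coneZ L n d A Z) - W * h =
        (∑ k ∈ Finset.range d, X ^ k) * g +
          c * q * g * (C B + ∑ i, sbS L n d (vol (Z i) - rho i)) := by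
      refine alg3 (t := (X : PowerSeries M)) (A := C A) (N := C (Fintype.card ι : M))
        (Ln := C ((L : M) ^ n)) (td := X ^ d) (r := rt) (W := W) (h := h) (y := y)
        (e := PowerSeries.mk fun _ => (1 : M)) ecL eg eh
        (PowerSeries.mk_one_mul_one_sub_eq_one M) ey ?_ rfl ?_ ?_ ?_ ?_
      · rw [vol, hcone]
      · have h1 : ∀ i, c * (sbS L n d (vol (Z i) - rho i) - 1) + sbS L n d (r i) * (c * g - Lc) +
            Lc * (c * sbS L n d ((1 - y) * rho i) * g + sbS L n d (r i)) =
            c * q * g - c * q * g * (1 - X) * sbS L n d (vol (Z i) - rho i) := fun i =>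
          alg2 eg (srel i)
        have h2 := Finset.sum_congr (rfl : (Finset.univ : Finset ι) = Finset.univ) fun i _ => h1 i
        rw [Finset.sum_add_distrib, ← Finset.mul_sum, Finset.sum_sub_distrib, ← Finset.mul_sum,
          Finset.sum_const, Finset.card_univ, nsmul_eq_mul] at h2
        have h3 : (C (Fintype.card ι : M) : PowerSeries M) = (Fintype.card ι : PowerSeries M) :=
          map_natCast _ _
        have h4 : ∑ i, c * q * g * (1 - X) * sbS L n d (vol (Z i) - rho i) =
            c * q * g * (1 - X) * ∑ i, sbS L n d (vol (Z i) - rho i) := by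
          rw [Finset.mul_sum]
        rw [hrt, hW, h3]
        linear_combination h2 + C B * (c * q * g) * ey - h4
      · have h1 : C A + C B + C (Fintype.card ι : M) =
            (C (∑ i ∈ Finset.range n, (L : M) ^ i) : PowerSeries M) := by
          rw [← map_add, ← map_add, hB]
          congr 1
          ring
        rw [h1, hc, ← map_mul, mul_geom_sum, map_sub, map_one]
      · rw [hq, qq, ← mul_assoc, ← map_mul, ← Units.val_pow_eq_pow_val, ← Units.val_mul,
          inv_pow, mul_inv_cancel, Units.val_one, map_one, one_mul]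
      · exact geom_sum_mul_neg _ _
    rw [key]
    refine (DenRing L K').add_mem ((DenRing L K').mul_mem
      ((DenRing L K').sum_mem fun k _ => (DenRing L K').pow_mem X_mem _) hgm)
      ((DenRing L K').mul_mem hcqg ((DenRing L K').add_mem (C_mem _)
        ((DenRing L K').sum_mem fun i _ => hdm i)))

end Pool.Agent.J4H19.YM
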